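import Pool.Agent.Lib.helper10.RedBlue

namespace Pool.Agent.Results.MP_ac2b6c_lc.NPHard

open Pool.Agent.Cx Finset

/-- `M` is a square 0-1 matrix with zero diagonal: a digraph without loops or parallel arcs -/
def IsDigraph (M : List (List Bool)) : Prop :=
  (∀ r ∈ M, r.length = M.length) ∧ ∀ i, ¬ Entry M i i

/-- red adjacency matrix, blue adjacency matrix, `r`, `b` -/
abbrev Inst := List (List Bool) × List (List Bool) × ℕ × ℕ

/-- a digraph with red and blue arcs and a nonempty proper vertex set left by at most `r` red and
at most `b` blue arcs -/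
def RBCut (I : Inst) : Prop :=
  IsDigraph I.1 ∧ IsDigraph I.2.1 ∧ I.2.1.length = I.1.length ∧
  (∀ i j, ¬ (Entry I.1 i j ∧ Entry I.2.1 i j)) ∧
  ∃ X : Finset ℕ, X.Nonempty ∧ X ⊂ range I.1.length ∧
    cutCnt I.1 X ≤ I.2.2.1 ∧ cutCnt I.2.1 X ≤ I.2.2.2

def Red (M : List (List Bool)) (K u v : ℕ) : Prop := u ≠ v ∧ (red0 M u v ∨
  (M.length ≤ u ∧ u < M.length + K) ∨ M.length + K ≤ v)

def Blue (n K u v : ℕ) : Prop := u = n + K ∧ v < n

instance (M : List (List Bool)) (K u v : ℕ) : Decidable (Red M K u v) := by
  unfold Red red0; infer_instance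

instance (n K u v : ℕ) : Decidable (Blue n K u v) := by unfold Blue; infer_instance

def build (M : List (List Bool)) (k r K : ℕ) : Inst :=
  (mat (List.range (M.length + K + K)) fun u v => decide (Red M K u v),
    mat (List.range (M.length + K + K)) fun u v => decide (Blue M.length K u v),
    r, M.length - k)

def red (I : List (List Bool) × ℕ) : Inst :=
  build I.1 I.2 (I.2 * (2 * I.1.length + 1 - I.2)) (I.2 * (2 * I.1.length + 1 - I.2) + 3 + 2 * I.1.length)

lemma red_pt : PT red := by
  have h1 : PT (fun p : (List (List Bool) × ℕ × ℕ × ℕ) × ℕ × ℕ =>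
      decide (Red p.1.1 p.1.2.2.2 p.2.1 p.2.2)) := PP.decide (by unfold Red red0; fun_prop)
  have h2 : PT (fun p : (List (List Bool) × ℕ × ℕ × ℕ) × ℕ × ℕ =>
      decide (Blue p.1.1.length p.1.2.2.2 p.2.1 p.2.2)) := PP.decide (by unfold Blue; fun_prop)
  have h3 : PT (fun p : List (List Bool) × ℕ × ℕ × ℕ => build p.1 p.2.1 p.2.2.1 p.2.2.2) :=
    (PT.mat (by fun_prop) h1).pair ((PT.mat (by fun_prop) h2).pair (by fun_prop))
  exact PT.comp (f := fun I : List (List Bool) × ℕ => (I.1, I.2, I.2 * (2 * I.1.length + 1 - I.2),
    I.2 * (2 * I.1.length + 1 - I.2) + 3 + 2 * I.1.length)) h3 (by fun_prop)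

lemma correct {M : List (List Bool)} {k r K : ℕ} (hM : IsGraph M) (hk : k ≤ M.length)
    (hr : r = k * (2 * M.length + 1 - k)) (hK : K = r + 3 + 2 * M.length) :
    HasClq M k ↔ RBCut (build M k r K) := by
  have cr : ∀ X : Finset ℕ, (∀ v ∈ X, v < M.length ∨ M.length + K ≤ v) →
      (∀ v, M.length + K ≤ v → v < M.length + K + K → v ∈ X) →
      cutCnt (build M k r K).1 X = (bad M (X.filter (· < M.length))).card := by
    intro X hX hX'
    refine cut_eq_bad hM (by simp [build]; omega) (fun v hv => by have := hX v hv; omega) ?_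
    intro u hu v hv hv'
    have := hX u hu
    have hne : u ≠ v := by rintro rfl; exact hv' hu
    simp only [build, entry_mat, mat_length, List.length_range] at hv ⊢
    refine ⟨fun ⟨_, _, _, h⟩ => ?_, fun h => ⟨by have := h.1; omega, hv, hne, Or.inl h⟩⟩
    rcases h with h | h | h
    · exact h
    · omega
    · exact absurd (hX' v h hv) hv'
  have cb : ∀ X : Finset ℕ, M.length + K ∈ X → (∀ v ∈ X, v < M.length + K + K) →
      cutCnt (build M k r K).2.1 X + (X.filter (· < M.length)).card = M.length := by
    intro X h1 h2
    refine cut_blue h1 (by simp [build]; omega) fun u hu v hv hv' => ?_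
    have := h2 u hu
    simp only [build, entry_mat, mat_length, List.length_range, Blue] at hv ⊢
    omega
  constructor
  · rintro ⟨S, h1, rfl, h3⟩
    have hm : ∀ v, v ∈ S ∪ Ico (M.length + K) (M.length + K + K) ↔
        (v ∈ S ∧ v < M.length) ∨ (M.length + K ≤ v ∧ v < M.length + K + K) := by
      intro v; have := h1 v; simp only [mem_union, mem_Ico]; tauto
    generalize S ∪ Ico (M.length + K) (M.length + K + K) = X at hm
    have hf : X.filter (· < M.length) = S := by
      ext v; simp only [mem_filter, hm]; have := h1 v; constructor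
      · rintro ⟨h | h, h'⟩
        · exact h.1
        · omega
      · tauto
    have hs : M.length + K ∈ X := (hm _).2 (Or.inr (by omega))
    have hX : ∀ v ∈ X, v < M.length + K + K := fun v hv => by have := (hm v).1 hv; omega
    refine ⟨⟨mat_row _ _, fun i => ?_⟩, ⟨mat_row _ _, fun i => ?_⟩, by simp [build], fun i j => ?_,
      X, ⟨_, hs⟩, ?_, ?_, ?_⟩
    · simp [build, entry_mat, Red]
    · simp only [build, entry_mat, Blue]; omega
    · simp only [build, entry_mat, Blue, Red, red0]; omega
    · refine (ssubset_iff_of_subset fun v hv => by simpa [build] using hX v hv).2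
        ⟨M.length, by simp [build]; omega, fun h => ?_⟩
      have := (hm _).1 h; omega
    · rw [cr X (fun v hv => by have := (hm v).1 hv; omega) (fun v a b => (hm v).2 (Or.inr ⟨a, b⟩)),
        hf]
      exact hr ▸ bad_le h1 h3
    · have := cb X hs hX
      rw [hf] at this
      simp only [build] at *; omega
  · rintro ⟨-, -, -, -, X, ⟨x, hx⟩, h1, h4, h5⟩
    have h6 : ∀ v ∈ X, v < M.length + K + K := fun v hv => by simpa [build] using h1.1 hv
    obtain ⟨y, hy, hy'⟩ := exists_of_ssubset h1
    simp only [build, mem_range, mat_length, List.length_range] at hy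
    have h7 : ∀ v ∈ X, v < M.length ∨ M.length + K ≤ v := by
      intro v hv
      by_contra hh
      have := blob (M := (build M k r K).1) M.length K v y (by simp [build]) hv
        (by simpa [build] using hy) hy' (fun j hj a b => by
          have : M.length + j ≠ v := by rintro rfl; exact a hv
          simp only [build, entry_mat, Red]; omega) (fun j hj a b => by
          have : M.length + j ≠ y := by rintro rfl; exact hy' a
          simp only [build, entry_mat, Red]; omega)
      simp only [build] at *; omega
    have h9 : ∀ v, M.length + K ≤ v → v < M.length + K + K → v ∈ X := by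
      intro v a' b'
      by_contra hh
      have := h6 x hx
      have := blob (M := (build M k r K).1) (M.length + K) K x v (by simp [build]) hx
        (by simpa [build] using b') hh (fun j hj a b => by
          have : M.length + K + j ≠ x := by rintro rfl; exact a hx
          simp only [build, entry_mat, Red]; omega) (fun j hj a b => by
          have : M.length + K + j ≠ v := by rintro rfl; exact hh a
          simp only [build, entry_mat, Red]; omega)
      simp only [build] at *; omega
    have h8 := cb X (h9 _ le_rfl (by omega)) h6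
    rw [cr X h7 h9] at h4
    exact clq_of_bad hM (fun u hu => (mem_filter.1 hu).2) (by simp only [build] at *; omega)
      (hr ▸ h4)

theorem result : NPHard (Lang RBCut) ∧ (InP (Lang RBCut) → ∀ L, InNP L → InP L) :=
  have h : Hard RBCut := Hard.of_clique red_pt fun _ _ hM _ hk => correct hM hk rfl rfl
  ⟨h.npHard, h.p_eq_np⟩

end Pool.Agent.Results.MP_ac2b6c_lc.NPHard
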